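import Pool.Agent.Q120.RC.Stm
import Pool.Agent.Q285.ME.ASU

/-! # Project RC (helper120), job ASU: the almost sure laws -/

set_option autoImplicit false

namespace Pool.Agent.Q241.RC

open Finset MeasureTheory Filter Pool.Agent.Q120.ET Pool.Agent.Q120.ME Pool.Agent.Q120.RC
open scoped Topology

/-! ### the logarithm as a sum of weights -/

/-- the weights -/
noncomputable def wl (i : ℕ) : ℝ := Real.log ((i : ℝ) + 1) - Real.log i

lemma log_sum (n : ℕ) : Real.log n = ∑ i ∈ range n, wl i := by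
  induction n with
  | zero => simp
  | succ n ih =>
    rw [sum_range_succ, ← ih]
    unfold wl
    push_cast
    ring

lemma wl_nonneg (i : ℕ) : 0 ≤ wl i := by
  unfold wl
  rcases Nat.eq_zero_or_pos i with h | h
  · subst h
    simp
  · have h1 : (0 : ℝ) < i := by exact_mod_cast h
    have := Real.log_le_log h1 (by linarith : (i : ℝ) ≤ i + 1)
    linarith

lemma wl_le (i : ℕ) : wl i ≤ 1 / i := by
  unfold wl
  rcases Nat.eq_zero_or_pos i with h | h
  · subst h
    simp
  · have h1 : (0 : ℝ) < i := by exact_mod_cast h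
    rw [← Real.log_div (by linarith) h1.ne']
    have h2 := Real.log_le_sub_one_of_pos (show (0 : ℝ) < ((i : ℝ) + 1) / i by positivity)
    have h3 : ((i : ℝ) + 1) / i - 1 = 1 / i := by field_simp; ring
    linarith

lemma wl_le_one (i : ℕ) : wl i ≤ 1 := by
  refine (wl_le i).trans ?_
  rcases Nat.eq_zero_or_pos i with h | h
  · subst h
    simp
  · rw [div_le_one (by exact_mod_cast h)]
    exact_mod_cast h

lemma tend_log : Tendsto (fun n : ℕ => Real.log (n : ℝ)) atTop atTop :=
  Real.tendsto_log_atTop.comp tendsto_natCast_atTop_atTop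

lemma mono_log : Monotone (fun n : ℕ => Real.log (n : ℝ)) := by
  refine monotone_nat_of_le_succ fun n => ?_
  have h1 := wl_nonneg n
  unfold wl at h1
  push_cast
  linarith

/-- the scales -/
lemma scalesL (r : ℝ) (hr : 1 < r) : ∃ y : ℕ → ℕ, (∀ j, r ^ j ≤ Real.log (y j)) ∧
    (∀ j x : ℕ, x < y j → Real.log x < r ^ j) ∧ (∀ j, Real.log (y j) ≤ r ^ j + 1) :=
  Pool.Agent.Q285.ME.scales (fun n : ℕ => Real.log (n : ℝ)) (by simp) (fun x => by
    have h1 := wl_le_one x
    unfold wl at h1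
    push_cast
    linarith) tend_log r hr

lemma summableL (d : ℕ → ℝ) (hd : Monotone d) (hd0 : ∀ n, 0 ≤ d n)
    (hs : Summable (fun n : ℕ => d n / (n * Real.log n ^ 2)))
    (ε : ℝ) (hε : 0 < ε) (y : ℕ → ℕ) (hy1 : ∀ j, (1 + ε) ^ j ≤ Real.log (y j))
    (hy2 : ∀ j x : ℕ, x < y j → Real.log x < (1 + ε) ^ j) (hy3 : ∀ j, Real.log (y j) ≤ (1 + ε) ^ j + 1) :
    Summable fun j => d (y j) / (1 + ε) ^ j := by
  refine Pool.Agent.Q285.ME.sumd wl (fun n : ℕ => Real.log (n : ℝ)) d wl_nonneg log_sum hd hd0 ?_ ε hε y hy1 hy2 hy3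
  refine Summable.of_nonneg_of_le (fun n => div_nonneg (mul_nonneg (wl_nonneg n) (hd0 n)) (sq_nonneg _)) (fun n => ?_) hs
  have h1 := mul_le_mul_of_nonneg_right (wl_le n) (hd0 n)
  have h2 := div_le_div_of_nonneg_right h1 (sq_nonneg (Real.log (n : ℝ)))
  refine h2.trans (le_of_eq ?_)
  rw [one_div, inv_mul_eq_div, div_div]

/-! ### the model: long runs -/

/-- the probability that the model avoids a window -/
lemma avoid (p : ℕ → ℝ) (F W : Finset ℕ) (hW : W ⊆ F) :
    ∑ T ∈ F.powerset, (if Disjoint T W then bern p F T else 0) = ∏ j ∈ W, (1 - p j) := by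
  classical
  have h1 := prod_add (fun i => if i ∈ W then 0 else p i) (fun i => 1 - p i) F
  have h2 : ∏ i ∈ F, ((if i ∈ W then 0 else p i) + (1 - p i)) = ∏ j ∈ W, (1 - p j) := by
    rw [← prod_subset hW]
    · refine prod_congr rfl fun i hi => ?_
      rw [if_pos hi, zero_add]
    · intro i _ hi
      rw [if_neg hi]
      ring
  rw [← h2, h1]
  refine sum_congr rfl fun T hT => ?_
  rw [mem_powerset] at hT
  have h3 : bern p F T = (∏ i ∈ T, p i) * ∏ i ∈ F \ T, (1 - p i) := by
    unfold bern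
    rw [← prod_sdiff hT, mul_comm]
    congr 1
    · exact prod_congr rfl fun i hi => if_pos hi
    · exact prod_congr rfl fun i hi => if_neg (mem_sdiff.1 hi).2
  split_ifs with hd
  · rw [h3]
    congr 1
    refine prod_congr rfl fun i hi => ?_
    rw [if_neg (Finset.disjoint_left.1 hd hi)]
  · rw [Finset.not_disjoint_iff] at hd
    obtain ⟨i, hi1, hi2⟩ := hd
    rw [prod_eq_zero (f := fun i => if i ∈ W then (0 : ℝ) else p i) hi1 (if_pos hi2), zero_mul]

lemma bern_nonneg {p : ℕ → ℝ} (h0 : ∀ n, 0 < p n) (h1 : ∀ n, p n < 1) (F T : Finset ℕ) : 0 ≤ bern p F T := by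
  classical
  unfold bern
  refine prod_nonneg fun n _ => ?_
  split_ifs
  · exact (h0 n).le
  · have := h1 n
    linarith

open Classical in
lemma run_prob (κ c : ℝ) (p : ℕ → ℝ) (hκ : 0 < κ) (hc : 0 < c) (hp : Mod κ c p) (ε : ℝ) (hε : 0 < ε) :
    ∃ θ : ℝ, 0 < θ ∧ ∀ᶠ x : ℕ in atTop,
      ∑ T ∈ (range x).powerset.filter (fun T : Finset ℕ => (1 + ε) * b0 κ c x < (mx (T : Set ℕ) x : ℝ)),
        bern p (range x) T ≤ Real.exp (-(θ * Real.log x)) := by
  refine ⟨ε / 2, by positivity, ?_⟩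
  have hδ : c * (1 - ε / (2 * (1 + ε))) < c := by
    have : 0 < ε / (2 * (1 + ε)) := by positivity
    nlinarith
  filter_upwards [hp.lim.eventually (lt_mem_nhds hδ), tend_log.eventually_gt_atTop 0] with x hx hlog
  set t : ℝ := (1 + ε) * b0 κ c x with ht
  have ht0 : 0 ≤ t := by
    rw [ht]
    unfold b0
    positivity
  set g : ℕ := ⌊t⌋₊ + 1 with hg
  have htg : t ≤ g := by
    rw [hg]
    push_cast
    exact (Nat.lt_floor_add_one t).le
  have hx0 : (0 : ℝ) < x := by
    rcases Nat.eq_zero_or_pos x with h | h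
    · subst h
      simp at hlog
    · exact_mod_cast h
  have hb := bern_nonneg hp.pos hp.lt_one (range x)
  calc ∑ T ∈ (range x).powerset.filter (fun T : Finset ℕ => t < (mx (T : Set ℕ) x : ℝ)), bern p (range x) T
      ≤ ∑ T ∈ (range x).powerset.filter (fun T : Finset ℕ => t < (mx (T : Set ℕ) x : ℝ)),
          ∑ m ∈ (range x).filter (fun m => m + g ≤ x), (if Disjoint T (Ico m (m + g)) then bern p (range x) T else 0) := by
        refine sum_le_sum fun T hT => ?_
        have h1 : g ≤ mx (T : Set ℕ) x := by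
          have := (Nat.floor_lt ht0).2 (mem_filter.1 hT).2
          omega
        obtain ⟨m, hm, hr⟩ := le_mx_iff.1 h1
        have h2 : m ∈ (range x).filter (fun m => m + g ≤ x) := mem_filter.2 ⟨mem_range.2 (by omega), hm⟩
        have h3 : Disjoint T (Ico m (m + g)) := by
          rw [Finset.disjoint_left]
          intro j hj hj2
          rw [mem_Ico] at hj2
          exact hr j hj2.1 hj2.2 (mem_coe.2 hj)
        have h4 := single_le_sum (f := fun m => if Disjoint T (Ico m (m + g)) then bern p (range x) T else 0)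
          (fun m _ => by
            split_ifs
            · exact hb T
            · exact le_rfl) h2
        refine le_trans (le_of_eq ?_) h4
        rw [if_pos h3]
    _ ≤ ∑ T ∈ (range x).powerset,
          ∑ m ∈ (range x).filter (fun m => m + g ≤ x), (if Disjoint T (Ico m (m + g)) then bern p (range x) T else 0) := by
        refine sum_le_sum_of_subset_of_nonneg (filter_subset _ _) fun T _ _ => sum_nonneg fun m _ => ?_
        split_ifs
        · exact hb T
        · exact le_rfl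
    _ = ∑ m ∈ (range x).filter (fun m => m + g ≤ x), ∏ j ∈ Ico m (m + g), (1 - p j) := by
        rw [sum_comm]
        refine sum_congr rfl fun m hm => ?_
        refine avoid p (range x) (Ico m (m + g)) fun j hj => ?_
        rw [mem_Ico] at hj
        rw [mem_range]
        have := (mem_filter.1 hm).2
        omega
    _ ≤ ∑ m ∈ (range x).filter (fun m => m + g ≤ x), Real.exp (-(p x * t)) := by
        refine sum_le_sum fun m hm => ?_
        have hm2 := (mem_filter.1 hm).2
        calc ∏ j ∈ Ico m (m + g), (1 - p j) ≤ ∏ _j ∈ Ico m (m + g), Real.exp (-(p x)) := by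
              refine prod_le_prod (fun j _ => by have := hp.lt_one j; linarith) fun j hj => ?_
              rw [mem_Ico] at hj
              have h1 := hp.anti (show j ≤ x by omega)
              have h2 := Real.add_one_le_exp (-(p x))
              linarith
          _ = Real.exp (-(p x * g)) := by
              rw [prod_const, Nat.card_Ico, Nat.add_sub_cancel_left, ← Real.exp_nat_mul]
              congr 1
              ring
          _ ≤ Real.exp (-(p x * t)) := by
              refine Real.exp_le_exp.2 ?_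
              have := mul_le_mul_of_nonneg_left htg (hp.pos x).le
              linarith
    _ ≤ x * Real.exp (-(p x * t)) := by
        rw [sum_const, nsmul_eq_mul]
        refine mul_le_mul_of_nonneg_right ?_ (Real.exp_pos _).le
        have := card_filter_le (range x) (fun m => m + g ≤ x)
        rw [card_range] at this
        exact_mod_cast this
    _ ≤ Real.exp (-(ε / 2 * Real.log x)) := by
        have h1 : p x * t = (1 + ε) * (p x * Real.log x ^ κ) * Real.log x / c := by
          rw [ht]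
          unfold b0
          rw [Real.rpow_add_one hlog.ne']
          ring
        have h2 : (1 + ε / 2) * Real.log x ≤ p x * t := by
          rw [h1, le_div_iff₀ hc]
          have h3 : (1 + ε / 2) * Real.log x * c = (1 + ε) * (c * (1 - ε / (2 * (1 + ε)))) * Real.log x := by
            field_simp
            ring
          rw [h3]
          refine mul_le_mul_of_nonneg_right ?_ hlog.le
          exact mul_le_mul_of_nonneg_left hx.le (by linarith)
        calc (x : ℝ) * Real.exp (-(p x * t)) = Real.exp (Real.log x) * Real.exp (-(p x * t)) := by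
              rw [Real.exp_log hx0]
          _ = Real.exp (Real.log x + -(p x * t)) := (Real.exp_add _ _).symm
          _ ≤ _ := Real.exp_le_exp.2 (by linarith)

/-! ### rare events -/

lemma ev (hE : J_EVT) (p d : ℕ → ℝ) (h0 : ∀ n, 0 < p n) (h1 : ∀ n, p n < 1) (hd0 : ∀ n, 0 ≤ d n)
    (Ω : Type) [MeasurableSpace Ω] (μ : Measure Ω) [IsProbabilityMeasure μ] (A : Ω → Set ℕ) (hA : IsRandomSet A)
    (hD : ∀ᶠ x : ℕ in atTop, relEnt p μ A (range x) ≤ d x) (Q : ℕ → Finset ℕ → Prop) [∀ x, DecidablePred (Q x)]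
    (θ : ℝ) (hθ : 0 < θ)
    (hQ : ∀ᶠ x : ℕ in atTop, ∑ T ∈ (range x).powerset with Q x T, bern p (range x) T ≤ Real.exp (-(θ * Real.log x)))
    (ε : ℝ) (hε : 0 < ε) (y : ℕ → ℕ) (hy1 : ∀ j, (1 + ε) ^ j ≤ Real.log (y j)) (hyt : Tendsto y atTop atTop)
    (hsd : Summable fun j => d (y j) / (1 + ε) ^ j) :
    ∀ᵐ ω ∂μ, ∀ᶠ j : ℕ in atTop, ¬ Q (y j) (tr A (range (y j)) ω) := by
  classical
  have hl2 : 0 < Real.log 2 := Real.log_pos (by norm_num)
  set E : ℕ → Set Ω := fun j => {ω | Q (y j) (tr A (range (y j)) ω)} with hEdef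
  have hsum : Summable fun j => μ.real (E j) := by
    have hg : Summable fun j : ℕ => (1 / (1 + ε)) ^ j :=
      summable_geometric_of_lt_one (by positivity) (by rw [div_lt_one (by linarith)]; linarith)
    refine Summable.of_norm_bounded_eventually_nat
      (g := fun j => 1 / θ * (d (y j) / (1 + ε) ^ j + Real.log 2 * (1 / (1 + ε)) ^ j))
      ((hsd.add (hg.mul_left _)).mul_left _) ?_
    filter_upwards [hyt.eventually hD, hyt.eventually hQ] with j hDj hQj
    have hP : 0 < (1 + ε) ^ j := by positivity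
    have hL : 0 < Real.log (y j) := hP.trans_le (hy1 j)
    rw [Real.norm_of_nonneg measureReal_nonneg]
    have h2 := (hE p (range (y j)) (fun n _ => ⟨h0 n, h1 n⟩) Ω μ A hA).2 (Q (y j)) (θ * Real.log (y j)) hQj
    have h3 : μ.real (E j) ≤ (d (y j) + Real.log 2) / (θ * Real.log (y j)) := by
      rw [le_div_iff₀ (by positivity)]
      exact h2.trans (by linarith)
    refine h3.trans ?_
    have h5 : 0 ≤ d (y j) + Real.log 2 := by linarith [hd0 (y j)]
    have h6 : θ * (1 + ε) ^ j ≤ θ * Real.log (y j) := mul_le_mul_of_nonneg_left (hy1 j) hθ.le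
    refine (div_le_div_of_nonneg_left h5 (by positivity) h6).trans (le_of_eq ?_)
    rw [one_div, one_div, inv_pow]
    field_simp
  have hfin : ∑' j, μ (E j) ≠ ⊤ := by
    have h1 : (fun j => μ (E j)) = fun j => ENNReal.ofReal (μ.real (E j)) := by
      funext j
      rw [Measure.real, ENNReal.ofReal_toReal (measure_ne_top _ _)]
    rw [h1]
    exact hsum.tsum_ofReal_ne_top
  exact ae_eventually_notMem hfin

lemma tr_congr {Ω : Type} [MeasurableSpace Ω] (A : Ω → Set ℕ) (ω : Ω) (x : ℕ) :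
    ∀ j < x, (j ∈ ((tr A (range x) ω : Finset ℕ) : Set ℕ) ↔ j ∈ A ω) := by
  intro j hj
  rw [mem_coe, mem_tr, mem_range]
  exact ⟨fun h => h.2, fun h => ⟨hj, h⟩⟩

/-- the growth of `d` -/
lemma d_le (d : ℕ → ℝ) (hd : Monotone d) (ε : ℝ) (hε : 0 < ε) (y : ℕ → ℕ) (hy1 : ∀ j, (1 + ε) ^ j ≤ Real.log (y j))
    (hsd : Summable fun j => d (y j) / (1 + ε) ^ j) : ∀ᶠ x : ℕ in atTop, d x ≤ Real.log x ^ 2 := by
  have hr : (1 : ℝ) < 1 + ε := by linarith
  have h1 := hsd.tendsto_atTop_zero.eventually (gt_mem_nhds (zero_lt_one (α := ℝ)))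
  obtain ⟨J, hJ⟩ := eventually_atTop.1 h1
  filter_upwards [tend_log.eventually_ge_atTop ((1 + ε) ^ J), tend_log.eventually_ge_atTop 1,
    tend_log.eventually_ge_atTop (1 + ε)] with x hx hx1 hx2
  obtain ⟨j, hj1, hj2⟩ := exists_nat_pow_near hx1 hr
  have hjJ : J ≤ j := by
    have h2 : (1 + ε) ^ J < (1 + ε) ^ (j + 1) := lt_of_le_of_lt hx hj2
    have h3 := (pow_lt_pow_iff_right₀ hr).1 h2
    omega
  have hP : 0 < (1 + ε) ^ (j + 1) := by positivity
  have e1 := hJ (j + 1) (by omega)
  rw [div_lt_one hP] at e1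
  have hxy : x ≤ y (j + 1) := by
    by_contra h
    push Not at h
    have h2 := mono_log h.le
    have h3 := hy1 (j + 1)
    simp only at h2
    linarith
  have e2 := hd hxy
  rw [pow_succ] at e1
  have e3 : (1 + ε) ^ j * (1 + ε) ≤ Real.log x * Real.log x := mul_le_mul hj1 hx2 (by linarith) (by linarith)
  nlinarith

/-- convergence from the estimates for `ε = 1 / (i + 2)` -/
lemma tend_of (f : ℕ → ℝ) (h : ∀ i : ℕ, ∀ᶠ x : ℕ in atTop, |f x - 1| ≤ 5 * (1 / ((i : ℝ) + 2))) :
    Tendsto f atTop (𝓝 1) := by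
  rw [Metric.tendsto_atTop]
  intro ε hε
  obtain ⟨i, hi⟩ := exists_nat_gt (5 / ε)
  obtain ⟨N, hN⟩ := eventually_atTop.1 (h i)
  refine ⟨N, fun x hx => ?_⟩
  rw [Real.dist_eq]
  refine lt_of_le_of_lt (hN x hx) ?_
  rw [mul_one_div, div_lt_iff₀ (by positivity)]
  rw [div_lt_iff₀ hε] at hi
  nlinarith

/-- the almost sure laws up to a factor -/
theorem key (hE : J_EVT) (hC : J_CHR) (hM : J_MLO) (κ c : ℝ) (p d : ℕ → ℝ) (hκ : 0 < κ) (hc : 0 < c)
    (hp : Mod κ c p) (hd : Monotone d) (hd0 : ∀ n, 0 ≤ d n)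
    (hs : Summable (fun n : ℕ => d n / (n * Real.log n ^ 2)))
    (Ω : Type) [MeasurableSpace Ω] (μ : Measure Ω) [IsProbabilityMeasure μ] (A : Ω → Set ℕ) (hA : IsRandomSet A)
    (hD : ∀ᶠ x : ℕ in atTop, relEnt p μ A (range x) ≤ d x) (ε : ℝ) (hε : 0 < ε) (hε1 : ε < 1) :
    ∀ᵐ ω ∂μ, (∀ᶠ x : ℕ in atTop, |(recS (A ω) x : ℝ) / (κ + 1) / Real.log x - 1| ≤ 5 * ε) ∧
      ∀ᶠ x : ℕ in atTop, |(c * (mx (A ω) x : ℝ)) ^ (1 / (κ + 1)) / Real.log x - 1| ≤ 5 * ε := by
  classical
  have hr : (1 : ℝ) < 1 + ε := by linarith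
  obtain ⟨y, hy1, hy2, hy3⟩ := scalesL (1 + ε) hr
  have hsd := summableL d hd hd0 hs ε hε y hy1 hy2 hy3
  have hyt : Tendsto y atTop atTop := by
    refine tendsto_atTop.2 fun N => ?_
    filter_upwards [(tendsto_pow_atTop_atTop_of_one_lt hr).eventually_gt_atTop (Real.log N)] with j hj
    by_contra h
    push Not at h
    have h1 := mono_log h.le
    have h2 := hy1 j
    simp only at h1
    linarith
  have hκ1 : 0 < κ + 1 := by linarith
  -- the record gaps
  obtain ⟨θ, hθ, hθQ⟩ := hC κ c p hκ hc hp (ε * (κ + 1)) (by positivity)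
  have hev1 := ev hE p d hp.pos hp.lt_one hd0 Ω μ A hA hD
    (fun x T => ε * (κ + 1) * Real.log x < |(recS (T : Set ℕ) x : ℝ) - (κ + 1) * Real.log x|) θ hθ hθQ
    ε hε y hy1 hyt hsd
  -- the longest run
  set ε₁ : ℝ := (1 + ε) ^ (κ + 1) - 1 with hε₁
  have hε₁0 : 0 < ε₁ := by
    have := Real.one_lt_rpow hr hκ1
    linarith
  set ε₂ : ℝ := 1 - (1 - ε) ^ (κ + 1) with hε₂
  have hε₂0 : 0 < ε₂ := by
    have := Real.rpow_lt_one (show (0 : ℝ) ≤ 1 - ε by linarith) (by linarith) hκ1
    linarith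
  obtain ⟨θ', hθ', hθQ'⟩ := run_prob κ c p hκ hc hp ε₁ hε₁0
  have hev2 := ev hE p d hp.pos hp.lt_one hd0 Ω μ A hA hD
    (fun x T => (1 + ε₁) * b0 κ c x < (mx (T : Set ℕ) x : ℝ)) θ' hθ' hθQ'
    ε hε y hy1 hyt hsd
  have hD2 : ∀ᶠ x : ℕ in atTop, relEnt p μ A (range x) ≤ Real.log x ^ 2 := by
    filter_upwards [hD, d_le d hd ε hε y hy1 hsd] with x h1 h2
    exact h1.trans h2
  have hev3 := hM κ c p hκ hc hp Ω μ A hA hD2 ε₂ hε₂0
  filter_upwards [hev1, hev2, hev3] with ω h1 h2 h3
  constructor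
  · refine Pool.Agent.Q285.ME.det (fun n : ℕ => Real.log (n : ℝ)) (fun x => (recS (A ω) x : ℝ) / (κ + 1)) mono_log ?_
      tend_log ε hε hε1 y hy1 hy2 hy3 ?_
    · intro x x' hx
      exact div_le_div_of_nonneg_right (Nat.cast_le.2 (recS_mono (A ω) hx)) hκ1.le
    · filter_upwards [h1] with j hj
      rw [not_lt, recS_congr (tr_congr A ω (y j))] at hj
      have e1 : (recS (A ω) (y j) : ℝ) / (κ + 1) - Real.log (y j) =
          ((recS (A ω) (y j) : ℝ) - (κ + 1) * Real.log (y j)) / (κ + 1) := by field_simp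
      rw [e1, abs_div, abs_of_pos hκ1, div_le_iff₀ hκ1]
      linarith
  · refine Pool.Agent.Q285.ME.det (fun n : ℕ => Real.log (n : ℝ)) (fun x => (c * (mx (A ω) x : ℝ)) ^ (1 / (κ + 1)))
      mono_log ?_ tend_log ε hε hε1 y hy1 hy2 hy3 ?_
    · intro x x' hx
      refine Real.rpow_le_rpow (by positivity) ?_ (by positivity)
      exact mul_le_mul_of_nonneg_left (Nat.cast_le.2 (mx_mono (A ω) hx)) hc.le
    · filter_upwards [h2, hyt.eventually h3] with j hj hj3
      rw [not_lt, mx_congr (tr_congr A ω (y j))] at hj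
      have hP : 0 < (1 + ε) ^ j := by positivity
      have hL : 0 < Real.log (y j) := hP.trans_le (hy1 j)
      set L := Real.log (y j) with hLdef
      have e0 : ∀ u : ℝ, 0 ≤ u → (u ^ (κ + 1)) ^ (1 / (κ + 1)) = u := by
        intro u hu
        rw [← Real.rpow_mul hu, mul_one_div, div_self hκ1.ne', Real.rpow_one]
      have e1 : c * (mx (A ω) (y j) : ℝ) ≤ ((1 + ε) * L) ^ (κ + 1) := by
        rw [Real.mul_rpow (by linarith) hL.le]
        have : (1 + ε₁) * b0 κ c (y j) = (1 + ε) ^ (κ + 1) * L ^ (κ + 1) / c := by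
          rw [hε₁]
          unfold b0
          ring
        rw [this, le_div_iff₀ hc] at hj
        linarith
      have e2 : ((1 - ε) * L) ^ (κ + 1) ≤ c * (mx (A ω) (y j) : ℝ) := by
        rw [Real.mul_rpow (by linarith) hL.le]
        have : (1 - ε₂) * b0 κ c (y j) = (1 - ε) ^ (κ + 1) * L ^ (κ + 1) / c := by
          rw [hε₂]
          unfold b0
          ring
        rw [this, div_le_iff₀ hc] at hj3
        linarith
      have e3 := Real.rpow_le_rpow (by positivity) e1 (show 0 ≤ 1 / (κ + 1) by positivity)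
      have hnn : 0 ≤ (1 - ε) * L := mul_nonneg (by linarith) hL.le
      have e4 := Real.rpow_le_rpow (Real.rpow_nonneg hnn _) e2 (show 0 ≤ 1 / (κ + 1) by positivity)
      rw [e0 _ (by positivity)] at e3
      rw [e0 _ hnn] at e4
      rw [abs_le]
      constructor <;> linarith

/-- ASU: the almost sure laws. -/
theorem t_ASU (hE : J_EVT) (hC : J_CHR) (hM : J_MLO) : Pool.Agent.Q120.RC.J_ASU := by
  intro κ c p d hκ hc hp hd hd0 hs Ω _ μ _ A hA hD
  have hκ1 : 0 < κ + 1 := by linarith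
  have h1 : ∀ᵐ ω ∂μ, ∀ i : ℕ, (∀ᶠ x : ℕ in atTop,
      |(recS (A ω) x : ℝ) / (κ + 1) / Real.log x - 1| ≤ 5 * (1 / ((i : ℝ) + 2))) ∧
      ∀ᶠ x : ℕ in atTop, |(c * (mx (A ω) x : ℝ)) ^ (1 / (κ + 1)) / Real.log x - 1| ≤ 5 * (1 / ((i : ℝ) + 2)) := by
    rw [ae_all_iff]
    intro i
    refine key hE hC hM κ c p d hκ hc hp hd hd0 hs Ω μ A hA hD _ (by positivity) ?_
    rw [div_lt_one (by positivity)]
    have : (0 : ℝ) ≤ i := Nat.cast_nonneg i
    linarith
  filter_upwards [h1] with ω hω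
  constructor
  · have h2 := (tend_of _ fun i => (hω i).1).const_mul (κ + 1)
    rw [mul_one] at h2
    refine h2.congr fun x => ?_
    rw [div_div, mul_div_assoc', mul_div_mul_left _ _ hκ1.ne']
  · have h2 := tend_of _ fun i => (hω i).2
    have h3 := h2.rpow_const (p := κ + 1) (Or.inl one_ne_zero)
    rw [Real.one_rpow] at h3
    refine h3.congr' ?_
    filter_upwards [tend_log.eventually_gt_atTop 0] with x hx
    rw [Real.div_rpow (by positivity) hx.le, ← Real.rpow_mul (by positivity), one_div_mul_cancel hκ1.ne',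
      Real.rpow_one]
    unfold b0
    rw [div_div_eq_mul_div, mul_comm c]

end Pool.Agent.Q241.RC
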